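import Pool.Agent.H135R2.VS.Defs

set_option autoImplicit false

/-! # Linked and globally linked pairs: definitions -/

namespace Pool.Agent.H95.Lk

open Pool.Agent.H135R2.VS (IsGeneric)

open Classical in
/-- The row of the pair `x, y` in the rigidity matrix of a configuration `p` in `ℝ^d`, as a
vector with one block of `d` coordinates for each vertex: it has `p x - p y` in the block of `x`,
`p y - p x` in the block of `y`, and zeros elsewhere. -/
noncomputable def row {V : Type*} {d : ℕ} (p : V → EuclideanSpace ℝ (Fin d)) (x y : V) :
    V → EuclideanSpace ℝ (Fin d) :=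
  fun z => if z = x then p x - p y else if z = y then p y - p x else 0

/-- The row space of the rigidity matrix of the framework `(G, p)`. -/
noncomputable def rowSpace {V : Type*} {d : ℕ} (G : SimpleGraph V)
    (p : V → EuclideanSpace ℝ (Fin d)) : Submodule ℝ (V → EuclideanSpace ℝ (Fin d)) :=
  Submodule.span ℝ {r | ∃ x y, G.Adj x y ∧ r = row p x y}

/-- The pair `{u, v}` is linked in `G` in `ℝ^d`: adding the edge `uv` to `G` does not increase
the rank of the generic rigidity matroid, `r_d(G + uv) = r_d(G)`. The rank is computed with some
generic realization; see `linked_iff_forall` for the independence of the choice. -/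
def Linked {V : Type*} (d : ℕ) (G : SimpleGraph V) (u v : V) : Prop :=
  ∃ p : V → EuclideanSpace ℝ (Fin d), IsGeneric p ∧
    Module.finrank ℝ (rowSpace (G ⊔ SimpleGraph.edge u v) p) = Module.finrank ℝ (rowSpace G p)

/-- The pair `{u, v}` is globally linked in `G` in `ℝ^d`: for every generic realization `(G, p)`
in `ℝ^d` and every equivalent realization `(G, q)` in `ℝ^d`, the distance of `u` and `v` is the
same in both. -/
def GloballyLinked {V : Type*} (d : ℕ) (G : SimpleGraph V) (u v : V) : Prop :=
  ∀ p : V → EuclideanSpace ℝ (Fin d), IsGeneric p →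
    ∀ q : V → EuclideanSpace ℝ (Fin d), (∀ x y, G.Adj x y → ‖p x - p y‖ = ‖q x - q y‖) →
      ‖p u - p v‖ = ‖q u - q v‖

end Pool.Agent.H95.Lk
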