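import Pool.Agent.H95.Lk.Defs
import Pool.Agent.H135R2.VS.Final

set_option autoImplicit false
set_option linter.unusedSectionVars false

/-! # Linked pairs in `ℝ^(d+1)` are globally linked in `ℝ^d` -/

namespace Pool.Agent.H95.Lk

open Set Matrix MvPolynomial Pool.Agent.H135R2.VS

variable {V : Type*} {d : ℕ} [Fintype V] [DecidableEq V]

/-- Every infinitesimal motion of `(G, P)` preserves the length of the pair `u, v`. -/
def IL (G : SimpleGraph V) (P : Conf d V) (u v : V) : Prop :=
  ∀ m : Conf d V, (∀ i j, G.Adj i j → fl P m i j = 0) → fl P m u v = 0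

/-- The first order change of length as a linear functional of the motion. -/
def flL (P : Conf d V) (i j : V) : Conf d V →ₗ[ℝ] ℝ where
  toFun m := fl P m i j
  map_add' m m' := fl_add P m m' i j
  map_smul' c m := fl_smul P m c i j

/-- The configuration in one more dimension. -/
def ext (p : Conf d V) (x : V → ℝ) : Conf (d + 1) V := fun i => Fin.cons (x i) (p i)

theorem exists_om {n : ℕ} {G : SimpleGraph V} {P : Conf n V} {u v : V} (h : IL G P u v) :
    ∃ ω : V → V → ℝ, (∀ i j, ¬ G.Adj i j → ω i j = 0) ∧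
      ∀ m : Conf n V, ∑ i, ∑ j, ω i j * fl P m i j = fl P m u v := by
  classical
  let L : V × V → Conf n V →ₗ[ℝ] ℝ := fun e => if G.Adj e.1 e.2 then flL P e.1 e.2 else 0
  have h1 : (⨅ e, LinearMap.ker (L e)) ≤ LinearMap.ker (flL P u v) := by
    intro m hm
    rw [LinearMap.mem_ker]
    apply h
    intro i j hij
    have := (Submodule.mem_iInf _).1 hm (i, j)
    rw [LinearMap.mem_ker] at this
    simpa [L, hij, flL] using this
  obtain ⟨c, hc⟩ := (Submodule.mem_span_range_iff_exists_fun ℝ).1 (mem_span_of_iInf_ker_le_ker h1)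
  refine ⟨fun i j => if G.Adj i j then c (i, j) else 0, fun i j hij => if_neg hij, fun m => ?_⟩
  have h2 := congrArg (fun f => f m) hc
  simp only [LinearMap.coe_sum, Finset.sum_apply, LinearMap.smul_apply] at h2
  rw [Fintype.sum_prod_type] at h2
  refine Eq.trans ?_ h2
  refine Finset.sum_congr rfl fun i _ => Finset.sum_congr rfl fun j _ => ?_
  by_cases hij : G.Adj i j
  · simp [L, hij, flL]
  · simp [L, hij]

theorem fl_single {n : ℕ} (P : Conf n V) (a : Fin n) (z : V → ℝ) (i j : V) :
    fl P (fun k => z k • Pi.single a (1 : ℝ)) i j = (P i a - P j a) * (z i - z j) := by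
  unfold fl
  rw [Finset.sum_eq_single a]
  · simp
  · intro b _ hb
    simp [Pi.single_eq_of_ne hb]
  · simp

theorem exists_om' {n : ℕ} {G : SimpleGraph V} {P : Conf n V} {u v : V} (h : IL G P u v) :
    ∃ ω : V → V → ℝ, (∀ i j, ¬ G.Adj i j → ω i j = 0) ∧
      ∀ a z, en ω (fun i => P i a) z = (P u a - P v a) * (z u - z v) := by
  obtain ⟨ω, h1, h2⟩ := exists_om h
  refine ⟨ω, h1, fun a z => ?_⟩
  rw [← fl_single, ← h2]
  unfold en
  refine Finset.sum_congr rfl fun i _ => Finset.sum_congr rfl fun j _ => ?_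
  rw [fl_single]

theorem gen_ext {p : Conf d V} (hp : Gen p) {x : V → ℝ}
    (hx : AlgebraicIndependent (adj ⊥ (range (unc p))) x) : Gen (ext p x) := by
  have h1 : AlgebraicIndependent (⊥ : SF) (Sum.elim (unc p) x) := algInd_sum (bot_of_rat hp) hx
  let e : V × Fin (d + 1) → (V × Fin d) ⊕ V := fun i =>
    Fin.cases (motive := fun _ => (V × Fin d) ⊕ V) (Sum.inr i.1) (fun a => Sum.inl (i.1, a)) i.2
  have he : Function.Injective e := by
    rintro ⟨i, a⟩ ⟨j, b⟩ h
    induction a using Fin.cases with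
    | zero =>
      induction b using Fin.cases with
      | zero => simpa [e] using h
      | succ b => simp [e] at h
    | succ a =>
      induction b using Fin.cases with
      | zero => simp [e] at h
      | succ b => simpa [e] using h
  have h2 := rat_of_sf (h1.comp e he)
  unfold Gen
  convert h2 using 1
  ext ⟨i, a⟩
  refine Fin.cases ?_ (fun a => ?_) a
  · simp [e, ext]
  · simp [e, ext, unc]

theorem main {G : SimpleGraph V} {p q : Conf d V} {u v : V} (hp : Gen p)
    (hIL : ∀ P : Conf (d + 1) V, Gen P → IL G P u v)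
    (hq : ∀ i j, G.Adj i j → fl q q i j = fl p p i j) : fl q q u v = fl p p u v := by
  have hc : Countable (adj (⊥ : SF) (range (unc p))) := countable_adj (countable_range _)
  have hD : Dense {x : V → ℝ | AlgebraicIndependent (adj (⊥ : SF) (range (unc p))) x} :=
    dense_algInd
  have hω : ∀ x : V → ℝ, AlgebraicIndependent (adj (⊥ : SF) (range (unc p))) x →
      ∃ ω : V → V → ℝ, (∀ i j, ¬ G.Adj i j → ω i j = 0) ∧
        (∀ z, en ω x z = (x u - x v) * (z u - z v)) ∧
        ∀ a z, en ω (fun i => p i a) z = (p u a - p v a) * (z u - z v) := by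
    intro x hx
    obtain ⟨ω, h1, h2⟩ := exists_om' (hIL _ (gen_ext hp hx))
    refine ⟨ω, h1, fun z => ?_, fun a z => ?_⟩
    · simpa [ext] using h2 0 z
    · simpa [ext] using h2 a.succ z
  obtain ⟨x₀, hx₀⟩ := hD.nonempty
  obtain ⟨ω₀, h1, h2, h3⟩ := hω x₀ hx₀
  have key : ∀ a : Fin d, (fun z => en ω₀ (fun i => q i a) z) =
      fun z => (q u a - q v a) * (z u - z v) := by
    intro a
    refine Continuous.ext_on hD ?_ ?_ ?_
    · unfold en
      fun_prop
    · fun_prop
    · intro x hx
      obtain ⟨ω, h1', h2', h3'⟩ := hω x hx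
      have hS : Str G p (ω + (-1 : ℝ) • ω₀) := by
        refine ⟨fun i j hij => ?_, fun a z => ?_⟩
        · simp [h1 i j hij, h1' i j hij]
        · rw [en_add_w, en_smul_w, h3, h3']; ring
      have hT := (hS.transfer hp hq).2 a x
      rw [en_add_w, en_smul_w, en_symm ω, h2'] at hT
      change en ω₀ (fun i => q i a) x = (q u a - q v a) * (x u - x v)
      linarith
  have h4 : ∑ i, ∑ j, ω₀ i j * fl q q i j = fl q q u v := by
    rw [Pool.Agent.H135R2.VS.sum_fl]
    unfold fl
    exact Finset.sum_congr rfl fun a _ => congrFun (key a) _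
  have h5 : ∑ i, ∑ j, ω₀ i j * fl p p i j = fl p p u v := by
    rw [Pool.Agent.H135R2.VS.sum_fl]
    unfold fl
    exact Finset.sum_congr rfl fun a _ => h3 a _
  rw [← h4, ← h5]
  refine Finset.sum_congr rfl fun i _ => Finset.sum_congr rfl fun j _ => ?_
  by_cases hij : G.Adj i j
  · rw [hq i j hij]
  · rw [h1 i j hij, zero_mul, zero_mul]

end Pool.Agent.H95.Lk
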