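import Pool.Agent.H95.Lk.Main

set_option autoImplicit false
set_option linter.unusedSectionVars false

/-! # Linked pairs in terms of infinitesimal motions; independence of the generic realization -/

namespace Pool.Agent.H95.Lk

open Set Matrix MvPolynomial Pool.Agent.H135R2.VS

section mat

variable {V : Type*} {d : ℕ} [Fintype V] [DecidableEq V]

theorem mem_ker_Rp (G : SimpleGraph V) (P m : Conf d V) :
    unc m ∈ LinearMap.ker (evm (Rp d ⊥ G) (unc P)).mulVecLin ↔
      ∀ i j, G.Adj i j → fl P m i j = 0 := by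
  rw [LinearMap.mem_ker, Matrix.mulVecLin_apply]
  constructor
  · intro h i j hij
    have := congrFun h (i, j)
    rwa [evm_Rp _ _ _ _ _ _ hij] at this
  · intro h
    ext ⟨i, j⟩
    by_cases hij : G.Adj i j
    · rw [evm_Rp _ _ _ _ _ _ hij, h i j hij]; rfl
    · rw [evm_Rp_zero _ _ _ _ _ _ hij]; rfl

theorem rank_generic_eq (G : SimpleGraph V) {P P₀ : Conf d V} (hP : Gen P) (hP₀ : Gen P₀) :
    (evm (Rp d ⊥ G) (unc P)).rank = (evm (Rp d ⊥ G) (unc P₀)).rank :=
  le_antisymm (rank_le_generic _ (bot_of_rat hP₀)) (rank_le_generic _ (bot_of_rat hP))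

theorem IL_iff_rank {G : SimpleGraph V} {u v : V} (huv : u ≠ v) {P : Conf d V} :
    IL G P u v ↔ (evm (Rp d ⊥ (G ⊔ SimpleGraph.edge u v)) (unc P)).rank =
      (evm (Rp d ⊥ G) (unc P)).rank := by
  have hle : LinearMap.ker (evm (Rp d ⊥ (G ⊔ SimpleGraph.edge u v)) (unc P)).mulVecLin ≤
      LinearMap.ker (evm (Rp d ⊥ G) (unc P)).mulVecLin := by
    intro m hm
    obtain ⟨m, rfl⟩ := unc_surj m
    rw [mem_ker_Rp] at hm ⊢
    exact fun i j hij => hm i j (Or.inl hij)
  have hadj : (G ⊔ SimpleGraph.edge u v).Adj u v := by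
    rw [SimpleGraph.sup_adj, SimpleGraph.edge_adj]
    exact Or.inr ⟨Or.inl ⟨rfl, rfl⟩, huv⟩
  have h1 := rank_ker (evm (Rp d ⊥ (G ⊔ SimpleGraph.edge u v)) (unc P))
  have h2 := rank_ker (evm (Rp d ⊥ G) (unc P))
  constructor
  · intro h
    have hge : LinearMap.ker (evm (Rp d ⊥ G) (unc P)).mulVecLin ≤
        LinearMap.ker (evm (Rp d ⊥ (G ⊔ SimpleGraph.edge u v)) (unc P)).mulVecLin := by
      intro m hm
      obtain ⟨m, rfl⟩ := unc_surj m
      rw [mem_ker_Rp] at hm ⊢
      intro i j hij
      rw [SimpleGraph.sup_adj, SimpleGraph.edge_adj] at hij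
      rcases hij with hij | ⟨⟨rfl, rfl⟩ | ⟨rfl, rfl⟩, _⟩
      · exact hm i j hij
      · exact h m hm
      · rw [fl_symm]; exact h m hm
    have := le_antisymm hle hge
    rw [this] at h1
    omega
  · intro h m hm
    have h3 : LinearMap.ker (evm (Rp d ⊥ (G ⊔ SimpleGraph.edge u v)) (unc P)).mulVecLin =
        LinearMap.ker (evm (Rp d ⊥ G) (unc P)).mulVecLin := by
      apply Submodule.eq_of_le_of_finrank_eq hle
      omega
    have h4 := (mem_ker_Rp G P m).2 hm
    rw [← h3, mem_ker_Rp] at h4
    exact h4 u v hadj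

theorem IL.generic {G : SimpleGraph V} {u v : V} {P₀ P : Conf d V} (h : IL G P₀ u v)
    (hP₀ : Gen P₀) (hP : Gen P) : IL G P u v := by
  rcases eq_or_ne u v with rfl | huv
  · intro m _
    exact fl_self P m u
  · rw [IL_iff_rank huv] at h ⊢
    rw [rank_generic_eq _ hP hP₀, rank_generic_eq _ hP hP₀, h]

end mat

section rows

variable {V : Type*} {d : ℕ}

theorem row_self (p : V → EuclideanSpace ℝ (Fin d)) (x : V) : row p x x = 0 := by
  funext z
  simp [row]

theorem rowSpace_mono {G H : SimpleGraph V} (h : G ≤ H) (p : V → EuclideanSpace ℝ (Fin d)) :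
    rowSpace G p ≤ rowSpace H p := by
  apply Submodule.span_mono
  rintro _ ⟨x, y, hxy, rfl⟩
  exact ⟨x, y, h hxy, rfl⟩

variable [Finite V]

theorem row_symm (p : V → EuclideanSpace ℝ (Fin d)) (x y : V) : row p x y = row p y x := by
  classical
  funext z
  unfold row
  by_cases hx : z = x
  · by_cases hy : z = y
    · subst hx; subst hy; simp
    · simp [hx, hy]
      intro h
      exact absurd (hx.trans h) hy
  · by_cases hy : z = y
    · subst hy
      simp [hx]
    · simp [hx, hy]

/-- Equality of the ranks means that the new row is in the row space. -/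
theorem finrank_eq_iff {G : SimpleGraph V} {u v : V} (p : V → EuclideanSpace ℝ (Fin d)) :
    Module.finrank ℝ (rowSpace (G ⊔ SimpleGraph.edge u v) p) = Module.finrank ℝ (rowSpace G p) ↔
      row p u v ∈ rowSpace G p := by
  have hle : rowSpace G p ≤ rowSpace (G ⊔ SimpleGraph.edge u v) p := rowSpace_mono le_sup_left p
  constructor
  · intro h
    rcases eq_or_ne u v with rfl | huv
    · rw [row_self]; exact Submodule.zero_mem _
    · have h1 := Submodule.eq_of_le_of_finrank_eq hle h.symm
      rw [h1]
      apply Submodule.subset_span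
      refine ⟨u, v, ?_, rfl⟩
      rw [SimpleGraph.sup_adj, SimpleGraph.edge_adj]
      exact Or.inr ⟨Or.inl ⟨rfl, rfl⟩, huv⟩
  · intro h
    have h1 : rowSpace (G ⊔ SimpleGraph.edge u v) p ≤ rowSpace G p := by
      apply Submodule.span_le.2
      rintro _ ⟨x, y, hxy, rfl⟩
      rw [SimpleGraph.sup_adj, SimpleGraph.edge_adj] at hxy
      rcases hxy with hxy | ⟨⟨rfl, rfl⟩ | ⟨rfl, rfl⟩, _⟩
      · exact Submodule.subset_span ⟨x, y, hxy, rfl⟩
      · exact h
      · rw [row_symm]; exact h
    rw [le_antisymm h1 hle]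

variable [Fintype V]

/-- Pairing with a motion. -/
noncomputable def pair (m : Conf d V) : (V → EuclideanSpace ℝ (Fin d)) →ₗ[ℝ] ℝ where
  toFun r := ∑ z, ∑ a, r z a * m z a
  map_add' r s := by
    simp only [Pi.add_apply, PiLp.add_apply, add_mul, Finset.sum_add_distrib]
  map_smul' c r := by
    simp only [Pi.smul_apply, PiLp.smul_apply, smul_eq_mul, mul_assoc, Finset.mul_sum,
      RingHom.id_apply]

theorem pair_row (m : Conf d V) (p : V → EuclideanSpace ℝ (Fin d)) {x y : V} (hxy : x ≠ y) :
    pair m (row p x y) = fl (fun i a => p i a) m x y := by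
  classical
  have h1 : ∀ z, row p x y z = (if z = x then p x - p y else 0) +
      (if z = y then p y - p x else 0) := by
    intro z
    unfold row
    by_cases hx : z = x
    · subst hx
      simp [hxy]
    · simp [hx]
  change ∑ z, ∑ a, row p x y z a * m z a = _
  have h2 : ∀ z, ∑ a, row p x y z a * m z a =
      (if z = x then ∑ a, (p x a - p y a) * m z a else 0) +
      (if z = y then ∑ a, (p y a - p x a) * m z a else 0) := by
    intro z
    rw [h1 z]
    by_cases hx : z = x
    · by_cases hy : z = y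
      · exact absurd (hx.symm.trans hy) hxy
      · simp [hx, hxy]
    · by_cases hy : z = y
      · simp [hy, hxy.symm]
      · simp [hx, hy]
  rw [Finset.sum_congr rfl fun z _ => h2 z, Finset.sum_add_distrib,
    Finset.sum_ite_eq' Finset.univ x, Finset.sum_ite_eq' Finset.univ y,
    if_pos (Finset.mem_univ _), if_pos (Finset.mem_univ _), ← Finset.sum_add_distrib]
  unfold fl
  refine Finset.sum_congr rfl fun a _ => ?_
  ring

theorem IL_of_mem {G : SimpleGraph V} {u v : V} {p : V → EuclideanSpace ℝ (Fin d)}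
    (h : row p u v ∈ rowSpace G p) : IL G (fun i a => p i a) u v := by
  intro m hm
  rcases eq_or_ne u v with rfl | huv
  · exact fl_self _ m u
  rw [← pair_row m p huv]
  have h1 : rowSpace G p ≤ LinearMap.ker (pair m) := by
    apply Submodule.span_le.2
    rintro _ ⟨x, y, hxy, rfl⟩
    rw [SetLike.mem_coe, LinearMap.mem_ker, pair_row m p hxy.ne]
    exact hm x y hxy
  exact h1 h

theorem mem_of_IL {G : SimpleGraph V} {u v : V} {p : V → EuclideanSpace ℝ (Fin d)}
    (h : IL G (fun i a => p i a) u v) : row p u v ∈ rowSpace G p := by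
  classical
  rcases eq_or_ne u v with rfl | huv
  · rw [row_self]; exact Submodule.zero_mem _
  obtain ⟨ω, h1, h2⟩ := exists_om h
  have h3 : row p u v = ∑ i, ∑ j, ω i j • row p i j := by
    funext z
    ext a
    have h4 := h2 (Pi.single z (Pi.single a 1))
    rw [← pair_row _ p huv] at h4
    have h5 : ∀ r : V → EuclideanSpace ℝ (Fin d), pair (Pi.single z (Pi.single a 1)) r = r z a := by
      intro r
      change ∑ w, ∑ b, r w b * (Pi.single z (Pi.single a (1 : ℝ)) : Conf d V) w b = r z a
      rw [Finset.sum_eq_single z, Finset.sum_eq_single a]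
      · simp
      · intro b _ hb
        simp [Pi.single_eq_of_ne hb]
      · simp
      · intro w _ hw
        simp [Pi.single_eq_of_ne hw]
      · simp
    rw [h5] at h4
    rw [← h4]
    rw [← h5 (∑ i, ∑ j, ω i j • row p i j)]
    simp only [map_sum, map_smul, smul_eq_mul]
    refine Finset.sum_congr rfl fun i _ => Finset.sum_congr rfl fun j _ => ?_
    by_cases hij : G.Adj i j
    · rw [pair_row _ p hij.ne]
    · rw [h1 i j hij, zero_mul, zero_mul]
  rw [h3]
  refine Submodule.sum_mem _ fun i _ => Submodule.sum_mem _ fun j _ => ?_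
  by_cases hij : G.Adj i j
  · exact Submodule.smul_mem _ _ (Submodule.subset_span ⟨i, j, hij, rfl⟩)
  · rw [h1 i j hij, zero_smul]; exact Submodule.zero_mem _

end rows

/-- A linked pair is infinitesimally linked in every generic realization. -/
theorem Linked.il {V : Type*} [Fintype V] [DecidableEq V] {d : ℕ} {G : SimpleGraph V} {u v : V}
    (h : Linked d G u v) (P : Conf d V) (hP : Gen P) : IL G P u v := by
  obtain ⟨p, hp, h1⟩ := h
  rw [finrank_eq_iff] at h1
  exact (IL_of_mem h1).generic (P₀ := fun i a => p i a) hp hP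

/-- Whether a pair is linked does not depend on the choice of the generic realization. -/
theorem linked_iff_forall {V : Type*} [Finite V] (d : ℕ) (G : SimpleGraph V) (u v : V) :
    Linked d G u v ↔ ∀ p : V → EuclideanSpace ℝ (Fin d), Pool.Agent.H135R2.VS.IsGeneric p →
      Module.finrank ℝ (rowSpace (G ⊔ SimpleGraph.edge u v) p) =
        Module.finrank ℝ (rowSpace G p) := by
  classical
  have := Fintype.ofFinite V
  constructor
  · intro h p hp
    rw [finrank_eq_iff]
    exact mem_of_IL (h.il _ hp)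
  · intro h
    obtain ⟨x, hx⟩ := (dense_algInd (ι := V × Fin d) (K := (⊥ : SF))).nonempty
    let p : V → EuclideanSpace ℝ (Fin d) := fun i => WithLp.toLp 2 (fun a => x (i, a))
    have hp : Pool.Agent.H135R2.VS.IsGeneric p := rat_of_sf hx
    exact ⟨p, hp, h p hp⟩

/-- **Linked pairs in `ℝ^(d+1)` are globally linked in `ℝ^d`.** -/
theorem globallyLinked_of_linked {V : Type*} [Finite V] (d : ℕ) (G : SimpleGraph V) (u v : V)
    (h : Linked (d + 1) G u v) : GloballyLinked d G u v := by
  classical
  have := Fintype.ofFinite V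
  intro p hp q hq
  have h1 := main (p := fun i a => p i a) (q := fun i a => q i a) (u := u) (v := v) hp
    (fun P hP => h.il P hP) (fun i j hij => (fl_eq_iff p q i j).1 (hq i j hij).symm)
  exact ((fl_eq_iff p q u v).2 h1).symm

end Pool.Agent.H95.Lk
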